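import Pool.Agent.TH456.PW.One

/-!
# `x ^ x` for almost all rational multiples `x` of `π`
-/

set_option autoImplicit false

namespace Pool.Agent.Results.MP_4c2ad3_nt.AlmostAllRationalMultiples

/-- the four numbers `log t`, `t ^ π`, `π ^ (π t)`, `t ^ (π t)`; the product of the last two is `(π t) ^ (π t)` -/
noncomputable def numbers (t : ℝ) : Fin 4 → ℝ :=
  ![Real.log t, t ^ Real.pi, Real.pi ^ (Real.pi * t), t ^ (Real.pi * t)]

/-- The `n`-tuples `t` of rational numbers in `[a, b]` with denominators at most `T` for which some nonzero polynomial `P`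
in `4 n + 1` variables, of degree at most `d` in each variable and with integer coefficients of absolute value at most
`T ^ A`, has absolute value at most `T ^ (-B)` at the numbers `π`, `log t_j`, `t_j ^ π`, `π ^ (π t_j)`, `t_j ^ (π t_j)`
(`j = 1, …, n`). -/
def Exceptional (d n : ℕ) (a b A B T : ℝ) : Set (Fin n → ℚ) :=
  {t | (∀ j, a ≤ t j ∧ t j ≤ b ∧ ((t j).den : ℝ) ≤ T) ∧
    ∃ P : MvPolynomial (Option (Fin n × Fin 4)) ℤ, P ≠ 0 ∧ (∀ x, P.degreeOf x ≤ d) ∧
      (∀ u, |((P.coeff u : ℤ) : ℝ)| ≤ T ^ A) ∧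
      |MvPolynomial.aeval (fun x : Option (Fin n × Fin 4) =>
        x.elim Real.pi fun y => numbers (t y.1) y.2) P| ≤ T ^ (-B)}

theorem numbers_eq (t : ℝ) (ht : 0 < t) (i : Fin 4) : numbers t i = Pool.Agent.TH456.PW.f4 Real.pi i t := by
  have hπ := Real.pi_pos
  fin_cases i
  · rfl
  · simp only [numbers, Pool.Agent.TH456.PW.f4]
    simp only [Fin.reduceFinMk, Matrix.cons_val]
    rw [Real.rpow_def_of_pos ht, mul_comm]
  · simp only [numbers, Pool.Agent.TH456.PW.f4]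
    simp only [Fin.reduceFinMk, Matrix.cons_val]
    rw [Real.rpow_def_of_pos hπ]
    congr 1
    ring
  · simp only [numbers, Pool.Agent.TH456.PW.f4]
    simp only [Fin.reduceFinMk, Matrix.cons_val]
    rw [Real.rpow_def_of_pos ht]
    congr 1
    ring

/-- The rational numbers `t` in `[a, b]` with denominator at most `T` for which some nonzero polynomial `P` in one variable
of degree at most `d`, with integer coefficients of absolute value at most `T ^ A`, satisfies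
`|P((π t) ^ (π t))| ≤ T ^ (-B)` or `|P(π ^ (π t))| ≤ T ^ (-B)`. -/
def ExceptionalOne (d : ℕ) (a b A B T : ℝ) : Set ℚ :=
  {t | a ≤ t ∧ t ≤ b ∧ (t.den : ℝ) ≤ T ∧ ∃ P : Polynomial ℤ, P ≠ 0 ∧ P.natDegree ≤ d ∧
    (∀ i, |((P.coeff i : ℤ) : ℝ)| ≤ T ^ A) ∧
    (|Polynomial.aeval ((Real.pi * t) ^ (Real.pi * t) : ℝ) P| ≤ T ^ (-B) ∨
      |Polynomial.aeval (Real.pi ^ (Real.pi * t) : ℝ) P| ≤ T ^ (-B))}

theorem self_eq (t : ℝ) (ht : 0 < t) : (Real.pi * t) ^ (Real.pi * t) =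
    Pool.Agent.TH456.PW.f1 Real.pi (Real.pi * Real.log Real.pi) t := by
  rw [Pool.Agent.TH456.PW.f1, Real.rpow_def_of_pos (mul_pos Real.pi_pos ht), Real.log_mul Real.pi_pos.ne' ht.ne']
  congr 1
  ring

theorem fix_eq (t : ℝ) : Real.pi ^ (Real.pi * t) =
    Pool.Agent.TH456.PW.f1 0 (Real.pi * Real.log Real.pi) t := by
  rw [Pool.Agent.TH456.PW.f1, Real.rpow_def_of_pos Real.pi_pos]
  congr 1
  ring

theorem one (d : ℕ) (a b A β : ℝ) (ha : 0 < a) (hab : a < b) (hA : 0 ≤ A) (hβ : 2 - 2 / ((d : ℝ) + 2) < β) :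
    ∃ B C : ℝ, ∀ T : ℝ, 1 ≤ T → (ExceptionalOne d a b A B T).Finite ∧
      ((ExceptionalOne d a b A B T).ncard : ℝ) ≤ C * T ^ β := by
  have hlog : Real.pi * Real.log Real.pi ≠ 0 := by
    have h1 : 0 < Real.log Real.pi := Real.log_pos (by have := Real.pi_gt_three; linarith)
    have := Real.pi_pos
    positivity
  obtain ⟨B1, C1, h1⟩ := Pool.Agent.TH456.PW.poly1 (Pool.Agent.TH456.PW.f1 Real.pi (Real.pi * Real.log Real.pi)) a b hab
    (fun t ht => Pool.Agent.TH456.PW.f1_an _ _ t (lt_of_lt_of_le ha ht.1)) d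
    (Pool.Agent.TH456.PW.f1_indep _ _ (Or.inl Real.pi_ne_zero) d a b ha hab) A β hA hβ
  obtain ⟨B2, C2, h2⟩ := Pool.Agent.TH456.PW.poly1 (Pool.Agent.TH456.PW.f1 0 (Real.pi * Real.log Real.pi)) a b hab
    (fun t ht => Pool.Agent.TH456.PW.f1_an _ _ t (lt_of_lt_of_le ha ht.1)) d
    (Pool.Agent.TH456.PW.f1_indep _ _ (Or.inr hlog) d a b ha hab) A β hA hβ
  refine ⟨max B1 B2, C1 + C2, fun T hT => ?_⟩
  obtain ⟨hf1, hl1⟩ := h1 T hT
  obtain ⟨hf2, hl2⟩ := h2 T hT
  have hsub : ExceptionalOne d a b A (max B1 B2) T ⊆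
      Pool.Agent.TH456.PW.ExcP (Pool.Agent.TH456.PW.f1 Real.pi (Real.pi * Real.log Real.pi)) d a b A B1 T ∪
      Pool.Agent.TH456.PW.ExcP (Pool.Agent.TH456.PW.f1 0 (Real.pi * Real.log Real.pi)) d a b A B2 T := by
    rintro t ⟨k1, k2, k3, P, hP, hd, hc, h | h⟩
    · refine Or.inl ⟨k1, k2, k3, P, hP, hd, hc, ?_⟩
      rw [self_eq _ (lt_of_lt_of_le ha k1)] at h
      exact h.trans (Real.rpow_le_rpow_of_exponent_le hT (neg_le_neg (le_max_left _ _)))
    · refine Or.inr ⟨k1, k2, k3, P, hP, hd, hc, ?_⟩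
      rw [fix_eq] at h
      exact h.trans (Real.rpow_le_rpow_of_exponent_le hT (neg_le_neg (le_max_right _ _)))
  refine ⟨(hf1.union hf2).subset hsub, ?_⟩
  have h3 := (Set.ncard_le_ncard hsub (hf1.union hf2)).trans (Set.ncard_union_le _ _)
  have h4 : ((ExceptionalOne d a b A (max B1 B2) T).ncard : ℝ) ≤
      ((Pool.Agent.TH456.PW.ExcP (Pool.Agent.TH456.PW.f1 Real.pi (Real.pi * Real.log Real.pi)) d a b A B1 T).ncard : ℝ) +
      ((Pool.Agent.TH456.PW.ExcP (Pool.Agent.TH456.PW.f1 0 (Real.pi * Real.log Real.pi)) d a b A B2 T).ncard : ℝ) := by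
    exact_mod_cast h3
  rw [add_mul]
  linarith

theorem several (d n : ℕ) (hn : 1 ≤ n) (a b A β : ℝ) (ha : 0 < a) (hab : a < b) (hA : 0 ≤ A)
    (hβ : 2 - 2 / (((d : ℝ) + 1) ^ (4 * n + 1) + 1) < β) :
    (∃ B C : ℝ, ∀ T : ℝ, 1 ≤ T → (Exceptional d n a b A B T).Finite ∧
      ((Exceptional d n a b A B T).ncard : ℝ) ≤ C * T ^ (2 * ((n : ℝ) - 1) + β)) ∧
    (∀ t : ℝ, 0 < t → numbers t 2 * numbers t 3 = (Real.pi * t) ^ (Real.pi * t)) := by
  constructor
  · obtain ⟨B, C, h⟩ := Pool.Agent.TH456.PW.polysG Real.pi (Pool.Agent.TH818.AP.goodConst_pi d)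
      (Pool.Agent.TH456.PW.f4 Real.pi) a b hab
      (fun i t ht => Pool.Agent.TH456.PW.f4_an Real.pi i t (lt_of_lt_of_le ha ht.1))
      (Pool.Agent.TH456.PW.f4_indep Real.pi Real.pi_pos (by have := Real.pi_gt_three; linarith)
        irrational_pi d a b ha hab) n hn A β hA hβ
    refine ⟨B, C, fun T hT => ?_⟩
    obtain ⟨h1, h2⟩ := h T hT
    have hEq : Exceptional d n a b A B T =
        {t : Fin n → ℚ | (∀ j, a ≤ t j ∧ t j ≤ b ∧ ((t j).den : ℝ) ≤ T) ∧
        ∃ P : MvPolynomial (Option (Fin n × Fin 4)) ℤ, P ≠ 0 ∧ (∀ x, P.degreeOf x ≤ d) ∧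
          (∀ u, |((P.coeff u : ℤ) : ℝ)| ≤ T ^ A) ∧
          |MvPolynomial.aeval (fun x : Option (Fin n × Fin 4) =>
            x.elim Real.pi fun y => Pool.Agent.TH456.PW.f4 Real.pi y.2 (t y.1)) P| ≤ T ^ (-B)} := by
      ext t
      simp only [Exceptional, Set.mem_ofPred_eq]
      refine and_congr_right fun ht => ?_
      have hfun : (fun x : Option (Fin n × Fin 4) => x.elim Real.pi fun y => numbers (t y.1) y.2) =
          (fun x : Option (Fin n × Fin 4) =>
            x.elim Real.pi fun y => Pool.Agent.TH456.PW.f4 Real.pi y.2 (t y.1)) := by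
        funext x
        match x with
        | none => rfl
        | some y => exact numbers_eq _ (lt_of_lt_of_le ha (ht y.1).1) _
      rw [hfun]
    rw [hEq]
    exact ⟨h1, h2⟩
  · intro t ht
    simp only [numbers, Matrix.cons_val]
    exact (Real.mul_rpow Real.pi_pos.le ht.le).symm

/-- Let `0 < a < b`, `A ≥ 0` and `d` a natural number.
(1) Let `β > 2 - 2 / (d + 2)`. There are `B`, `C` such that for all `T ≥ 1`, for all but at most `C T ^ β` of the rational
numbers `t` in `[a, b]` with denominator at most `T`, every nonzero integer polynomial `P` of degree at most `d` with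
coefficients of absolute value at most `T ^ A` satisfies `|P(x ^ x)| > T ^ (-B)`, `x = π t`, and
`|P(π ^ (π t))| > T ^ (-B)`.
(2) Let `n ≥ 1` and `β > 2 - 2 / ((d + 1) ^ (4 n + 1) + 1)`. There are `B`, `C` such that for all `T ≥ 1`, for all but at
most `C T ^ (2 (n - 1) + β)` of the `n`-tuples `t` of rational numbers in `[a, b]` with denominators at most `T`, every
nonzero integer polynomial in `4 n + 1` variables of degree at most `d` in each variable with coefficients of absolute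
value at most `T ^ A` has absolute value more than `T ^ (-B)` at the numbers `π`, `log t_j`, `t_j ^ π`, `π ^ (π t_j)`,
`t_j ^ (π t_j)`.
(3) `π ^ (π t) t ^ (π t) = (π t) ^ (π t)`. -/
theorem result (a b A : ℝ) (ha : 0 < a) (hab : a < b) (hA : 0 ≤ A) (d : ℕ) :
    (∀ β : ℝ, 2 - 2 / ((d : ℝ) + 2) < β →
      ∃ B C : ℝ, ∀ T : ℝ, 1 ≤ T → (ExceptionalOne d a b A B T).Finite ∧
        ((ExceptionalOne d a b A B T).ncard : ℝ) ≤ C * T ^ β) ∧
    (∀ (n : ℕ) (β : ℝ), 1 ≤ n → 2 - 2 / (((d : ℝ) + 1) ^ (4 * n + 1) + 1) < β →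
      ∃ B C : ℝ, ∀ T : ℝ, 1 ≤ T → (Exceptional d n a b A B T).Finite ∧
        ((Exceptional d n a b A B T).ncard : ℝ) ≤ C * T ^ (2 * ((n : ℝ) - 1) + β)) ∧
    (∀ t : ℝ, 0 < t → numbers t 2 * numbers t 3 = (Real.pi * t) ^ (Real.pi * t)) :=
  ⟨fun β hβ => one d a b A β ha hab hA hβ, fun n β hn hβ => (several d n hn a b A β ha hab hA hβ).1,
    (several d 1 le_rfl a b A 2 ha hab hA (by
      have : (0 : ℝ) < 2 / (((d : ℝ) + 1) ^ (4 * 1 + 1) + 1) := by positivity
      linarith)).2⟩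

end Pool.Agent.Results.MP_4c2ad3_nt.AlmostAllRationalMultiples
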