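import Pool.Agent.TH577.PP.Pi

/-!
# `π ^ π` in families of numbers with exponents which are polynomials in `π`

Let `𝓛` be the space of all linear combinations, with algebraic coefficients, of `1` and of
logarithms of algebraic numbers.

(A) Let `P` be a finite dimensional space of complex numbers over the algebraic numbers, `1 ∈ P`,
`δ = dim P`, `ρ = dim (P ∩ 𝓛) ≥ 1`. Let `l_1, ..., l_n` be logarithms of algebraic numbers, linearly
independent over `ℚ`, and `u_1, ..., u_k` arbitrary complex numbers. The space of all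
`(p, q) ∈ P ^ n × P ^ k` with `∑ p_j l_j + ∑ q_i u_i ∈ 𝓛` has dimension at most
`n + k δ + δ (δ - 1) + 1 - ρ`; it contains the trivial space of all `(p, 0)` with algebraic `p_j`,
of dimension `n`, and the whole space has dimension `(n + k) δ`.

(B) `P` = polynomials in `π` of degree at most `D`: let `a_1, ..., a_n` be positive algebraic
numbers, multiplicatively independent. The exponents `(P_1, ..., P_n, Q)`, polynomials of degree at
most `D ≥ 1` with algebraic coefficients, for which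
`a_1 ^ P_1(π) ⋯ a_n ^ P_n(π) * π ^ Q(π)` is algebraic span a space of dimension at most
`n + (D + 1) ^ 2 - 1`.

(C) Hence at most `(D + 1) ^ 2 - 1` multiplicatively independent positive algebraic numbers `a` have
the property that `(a π ^ m) ^ Q(π)` is algebraic for at least one algebraic real number `m` and at
least one nonconstant polynomial `Q` of degree at most `D` with algebraic coefficients (both may
depend on `a`); at most `(D + 1) ^ 2 - 2` if `π ^ π` is algebraic.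

(D) For one common exponent `α π + β`: the positive algebraic numbers `c` for which
`(c π ^ m) ^ (α π + β)` is algebraic lie in one coset of a group of rank at most one.

(E) At least one of `π ^ π`, `(2 π) ^ π`, `(3 π) ^ π` is transcendental.
-/

set_option autoImplicit false

namespace Pool.Agent.Results.MP_4c2ad3_nt.PolynomialExponents

open Module Polynomial Real
open Pool.Agent.H301R2.SSE (QB mem_QB Lt Lt_mul Lt_alg Lt_log Lt_one)
open Pool.Agent.TH577.PP

/-- The linear forms in `1` and logarithms of algebraic numbers, with algebraic coefficients. -/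
noncomputable def LogForms : Submodule (algebraicClosure ℚ ℂ) ℂ :=
  Submodule.span (algebraicClosure ℚ ℂ) ({1} ∪ {z : ℂ | IsAlgebraic ℚ (Complex.exp z)})

/-- The space of all `(p, q) ∈ P ^ n × P ^ k` with `∑ p_j l_j + ∑ q_i u_i ∈ LogForms` (the set in
braces is a vector space). -/
noncomputable def Exponents (P : Submodule (algebraicClosure ℚ ℂ) ℂ) {n k : ℕ} (l : Fin n → ℂ)
    (u : Fin k → ℂ) : Submodule (algebraicClosure ℚ ℂ) ((Fin n → P) × (Fin k → P)) :=
  Submodule.span (algebraicClosure ℚ ℂ)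
    {x | ∑ j, (x.1 j : ℂ) * l j + ∑ i, (x.2 i : ℂ) * u i ∈ LogForms}

theorem exponents_eq (P : Submodule (algebraicClosure ℚ ℂ) ℂ) {n k : ℕ} (l : Fin n → ℂ)
    (u : Fin k → ℂ) : Exponents P l u = Submodule.comap (lin2 P l u) Lt := by
  have h : {x : (Fin n → P) × (Fin k → P) | ∑ j, (x.1 j : ℂ) * l j + ∑ i, (x.2 i : ℂ) * u i ∈
      LogForms} = (Submodule.comap (lin2 P l u) Lt : Set ((Fin n → P) × (Fin k → P))) := by
    ext x
    rw [SetLike.mem_coe, Submodule.mem_comap, lin2_apply]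
    rfl
  rw [Exponents, h, Submodule.span_eq]

theorem part_A (P : Submodule (algebraicClosure ℚ ℂ) ℂ)
    [FiniteDimensional (algebraicClosure ℚ ℂ) P] (h1 : (1 : ℂ) ∈ P) (n k : ℕ) (l : Fin n → ℂ)
    (u : Fin k → ℂ) (hl : ∀ j, IsAlgebraic ℚ (Complex.exp (l j))) (hli : LinearIndependent ℚ l) :
    finrank (algebraicClosure ℚ ℂ) (Exponents P l u) +
        finrank (algebraicClosure ℚ ℂ) (P ⊓ LogForms : Submodule (algebraicClosure ℚ ℂ) ℂ) ≤
      n + k * finrank (algebraicClosure ℚ ℂ) P +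
        finrank (algebraicClosure ℚ ℂ) P * (finrank (algebraicClosure ℚ ℂ) P - 1) + 1 := by
  have h := main P h1 l hl hli u
  rw [exponents_eq]
  exact h

/-- the logarithms of the `a_j` -/
theorem log_data {n : ℕ} (a : Fin n → ℝ) (ha : ∀ j, 0 < a j ∧ IsAlgebraic ℚ (a j))
    (hli : LinearIndependent ℚ fun j => Real.log (a j)) :
    (∀ j, IsAlgebraic ℚ (Complex.exp ((Real.log (a j) : ℝ) : ℂ))) ∧
      LinearIndependent ℚ (fun j => ((Real.log (a j) : ℝ) : ℂ)) := by
  refine ⟨fun j => ?_, ?_⟩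
  · rw [← Complex.ofReal_exp, Real.exp_log (ha j).1]
    exact (ha j).2.algebraMap
  · exact hli.map' ((IsScalarTower.toAlgHom ℚ ℝ ℂ).toLinearMap) (by
      rw [LinearMap.ker_eq_bot]
      exact Complex.ofReal_injective)

theorem exp_mul_log {x : ℝ} (hx : 0 < x) (y : ℂ) :
    ((x : ℂ)) ^ y = Complex.exp (y * ((Real.log x : ℝ) : ℂ)) := by
  rw [Complex.cpow_def_of_ne_zero (by exact_mod_cast hx.ne'), Complex.ofReal_log hx.le, mul_comm]

theorem part_B (D n r : ℕ) (a : Fin n → ℝ) (F : Fin r → Fin n → (algebraicClosure ℚ ℂ)[X])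
    (G : Fin r → (algebraicClosure ℚ ℂ)[X]) (hD : 1 ≤ D)
    (ha : ∀ j, 0 < a j ∧ IsAlgebraic ℚ (a j)) (hli : LinearIndependent ℚ fun j => Real.log (a j))
    (hFG : LinearIndependent (algebraicClosure ℚ ℂ) fun s => (F s, G s))
    (hF : ∀ s j, (F s j).natDegree ≤ D) (hG : ∀ s, (G s).natDegree ≤ D)
    (h : ∀ s, IsAlgebraic ℚ ((∏ j, (a j : ℂ) ^ (aeval (π : ℂ) (F s j))) *
      (π : ℂ) ^ (aeval (π : ℂ) (G s)))) : r + 1 ≤ n + (D + 1) ^ 2 := by
  obtain ⟨h1, h2⟩ := log_data a ha hli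
  have hinj : Function.Injective (fun g : (algebraicClosure ℚ ℂ)[X] => (fun _ : Fin 1 => g)) :=
    fun x y hxy => congrFun hxy 0
  have hb := vec_bound pi_tr pi_mem_Lt hD (fun j => ((Real.log (a j) : ℝ) : ℂ)) h1 h2
    (fun _ : Fin 1 => ((Real.log π : ℝ) : ℂ)) (fun s : Fin r => (F s, fun _ => G s)) ?_ hF
    (fun s _ => hG s) ?_
  · rw [Fintype.card_fin] at hb
    have h9 : (D + 1) ^ 2 = (D + 1) + (D + 1) * D := by ring
    omega
  · let T : ((Fin n → (algebraicClosure ℚ ℂ)[X]) × (algebraicClosure ℚ ℂ)[X]) →ₗ[algebraicClosure ℚ ℂ]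
        ((Fin n → (algebraicClosure ℚ ℂ)[X]) × (Fin 1 → (algebraicClosure ℚ ℂ)[X])) :=
      LinearMap.prodMap LinearMap.id (LinearMap.pi fun _ => LinearMap.id)
    exact hFG.map' T (by
      rw [LinearMap.ker_eq_bot]
      rintro ⟨x1, x2⟩ ⟨y1, y2⟩ hxy
      have h3 : x1 = y1 := congrArg Prod.fst hxy
      have h4 : x2 = y2 := congrFun (congrArg Prod.snd hxy) 0
      rw [h3, h4])
  · intro s
    apply Lt_log
    have h3 := h s
    rw [exp_mul_log pi_pos] at h3
    simp only [exp_mul_log (ha _).1] at h3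
    rw [← Complex.exp_sum, ← Complex.exp_add] at h3
    rw [Fin.sum_univ_one]
    exact h3

theorem part_C (D r : ℕ) (a m : Fin r → ℝ) (Q : Fin r → (algebraicClosure ℚ ℂ)[X]) (hD : 1 ≤ D)
    (ha : ∀ j, 0 < a j ∧ IsAlgebraic ℚ (a j)) (hli : LinearIndependent ℚ fun j => Real.log (a j))
    (hm : ∀ j, IsAlgebraic ℚ (m j)) (hQ : ∀ j, 1 ≤ (Q j).natDegree ∧ (Q j).natDegree ≤ D)
    (h : ∀ j, IsAlgebraic ℚ (((a j * π ^ m j : ℝ) : ℂ) ^ (aeval (π : ℂ) (Q j)))) :
    r + 1 ≤ (D + 1) ^ 2 ∧ (IsAlgebraic ℚ (π ^ π) → r + 2 ≤ (D + 1) ^ 2) := by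
  obtain ⟨h1, h2⟩ := log_data a ha hli
  have key : ∀ e : ℕ, e ≤ 1 → (e = 1 → IsAlgebraic ℚ (π ^ π)) → r + e + 1 ≤ (D + 1) ^ 2 := by
    intro e he he2
    refine family_bound pi_tr pi_mem_Lt hD (fun j => ((Real.log (a j) : ℝ) : ℂ)) h1 h2
      ((Real.log π : ℝ) : ℂ) (fun j => ⟨(m j : ℂ), mem_QB.mpr ((hm j).algebraMap (A := ℂ))⟩) Q
      (fun j => (hQ j).1) (fun j => (hQ j).2) ?_ e he ?_
    · intro j
      apply Lt_log
      have hp : 0 < π ^ m j := Real.rpow_pos_of_pos pi_pos _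
      have h3 := h j
      rw [exp_mul_log (mul_pos (ha j).1 hp), Real.log_mul (ha j).1.ne' hp.ne',
        Real.log_rpow pi_pos] at h3
      have h4 : ((Real.log (a j) + m j * Real.log π : ℝ) : ℂ) =
          ((Real.log (a j) : ℝ) : ℂ) + (m j : ℂ) * ((Real.log π : ℝ) : ℂ) := by push_cast; ring
      rw [h4] at h3
      exact h3
    · intro h3
      apply Lt_log
      have h4 := (he2 h3).algebraMap (A := ℂ)
      have h5 : (algebraMap ℝ ℂ) (π ^ π) = Complex.exp ((π : ℂ) * ((Real.log π : ℝ) : ℂ)) := by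
        rw [← exp_mul_log pi_pos]
        exact Complex.ofReal_cpow pi_pos.le π
      rwa [h5] at h4
  exact ⟨key 0 (by norm_num) (by norm_num), fun h3 => key 1 le_rfl (fun _ => h3)⟩

theorem mem_of_rpow {x y : ℝ} (hx : 0 < x) (h : IsAlgebraic ℚ (x ^ y)) :
    (y : ℂ) * ((Real.log x : ℝ) : ℂ) ∈ Lt := by
  apply Lt_log
  have h4 := h.algebraMap (A := ℂ)
  have h5 : (algebraMap ℝ ℂ) (x ^ y) = Complex.exp ((y : ℂ) * ((Real.log x : ℝ) : ℂ)) := by
    rw [← exp_mul_log hx]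
    exact Complex.ofReal_cpow hx.le y
  rwa [h5] at h4

theorem part_D (t c α β : ℝ) (a : Fin 2 → ℝ) (ht : 0 < t) (hc : 0 < c)
    (ha : ∀ j, 0 < a j ∧ IsAlgebraic ℚ (a j)) (hli : LinearIndependent ℚ fun j => Real.log (a j))
    (hα : IsAlgebraic ℚ α) (hβ : IsAlgebraic ℚ β) (hα0 : α ≠ 0) :
    Transcendental ℚ ((c * t) ^ (α * π + β)) ∨
      ∃ j, Transcendental ℚ ((a j * c * t) ^ (α * π + β)) := by
  by_contra hcon
  simp only [not_or, not_exists, Transcendental, not_not] at hcon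
  obtain ⟨h0, h1⟩ := hcon
  obtain ⟨h2, h3⟩ := log_data a ha hli
  have hct := mul_pos hc ht
  have k0 := mem_of_rpow hct h0
  refine two_logs pi_tr pi_mem_Lt (fun j => ((Real.log (a j) : ℝ) : ℂ)) h2 h3
    ⟨(α : ℂ), mem_QB.mpr (hα.algebraMap (A := ℂ))⟩ ⟨(β : ℂ), mem_QB.mpr (hβ.algebraMap (A := ℂ))⟩
    (fun h => hα0 (by
      have := congrArg (fun z : QB => (z : ℂ)) h
      simpa using this)) ?_
  intro j
  have k1 := mem_of_rpow (mul_pos (mul_pos (ha j).1 hc) ht) (h1 j)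
  have k2 := sub_mem k1 k0
  rw [mul_assoc, Real.log_mul (ha j).1.ne' hct.ne'] at k2
  have e : (((α * π + β : ℝ) : ℂ)) * ((Real.log (a j) + Real.log (c * t) : ℝ) : ℂ) -
      ((α * π + β : ℝ) : ℂ) * ((Real.log (c * t) : ℝ) : ℂ) =
      ((α : ℂ) * (π : ℂ) + (β : ℂ)) * ((Real.log (a j) : ℝ) : ℂ) := by push_cast; ring
  rw [e] at k2
  exact k2

theorem log_two_three : LinearIndependent ℚ (fun j : Fin 2 => Real.log ((![2, 3] : Fin 2 → ℝ) j)) := by
  have h : (fun j : Fin 2 => Real.log ((![2, 3] : Fin 2 → ℝ) j)) = ![Real.log 2, Real.log 3] := by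
    funext j; fin_cases j <;> rfl
  rw [h, ← LinearIndependent.iff_fractionRing (R := ℤ) (K := ℚ), LinearIndependent.pair_iff]
  intro x y hxy
  simp only [zsmul_eq_mul] at hxy
  have h2 : Real.log ((2 : ℝ) ^ x * (3 : ℝ) ^ y) = 0 := by
    rw [Real.log_mul (by positivity) (by positivity), Real.log_zpow, Real.log_zpow]
    exact hxy
  have h3 : (2 : ℝ) ^ x * (3 : ℝ) ^ y = 1 := by
    rcases Real.log_eq_zero.mp h2 with h | h | h
    · exact absurd h (by positivity)
    · exact h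
    · have : (0 : ℝ) < 2 ^ x * 3 ^ y := by positivity
      linarith
  have h4 : (2 : ℚ) ^ x * (3 : ℚ) ^ y = 1 := by
    have h5 : (((2 : ℚ) ^ x * (3 : ℚ) ^ y : ℚ) : ℝ) = ((1 : ℚ) : ℝ) := by
      push_cast
      exact h3
    exact_mod_cast h5
  have v2 := congrArg (padicValRat 2) h4
  have v3 := congrArg (padicValRat 3) h4
  have : Fact (Nat.Prime 2) := ⟨Nat.prime_two⟩
  have : Fact (Nat.Prime 3) := ⟨Nat.prime_three⟩
  rw [padicValRat.mul (by positivity) (by positivity), padicValRat.zpow, padicValRat.zpow]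
    at v2 v3
  have a1 : padicValRat 2 (2 : ℚ) = 1 := by
    have := padicValRat.self (p := 2) (by norm_num); exact_mod_cast this
  have a2 : padicValRat 3 (3 : ℚ) = 1 := by
    have := padicValRat.self (p := 3) (by norm_num); exact_mod_cast this
  have a3 : padicValRat 2 (3 : ℚ) = 0 := by
    have : padicValRat 2 ((3 : ℕ) : ℚ) = 0 := by
      rw [padicValRat.of_nat, padicValNat.eq_zero_of_not_dvd (by norm_num)]; rfl
    exact_mod_cast this
  have a4 : padicValRat 3 (2 : ℚ) = 0 := by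
    have : padicValRat 3 ((2 : ℕ) : ℚ) = 0 := by
      rw [padicValRat.of_nat, padicValNat.eq_zero_of_not_dvd (by norm_num)]; rfl
    exact_mod_cast this
  rw [a1, a3] at v2
  rw [a2, a4] at v3
  simp at v2 v3
  exact ⟨v2, v3⟩

theorem part_E : Transcendental ℚ (π ^ π) ∨ Transcendental ℚ ((2 * π) ^ π) ∨
    Transcendental ℚ ((3 * π) ^ π) := by
  have h := part_D π 1 1 0 ![2, 3] pi_pos one_pos (by
    intro j
    fin_cases j
    · exact ⟨by norm_num, isAlgebraic_natCast 2⟩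
    · exact ⟨by norm_num, isAlgebraic_natCast 3⟩) log_two_three isAlgebraic_one isAlgebraic_zero
    one_ne_zero
  rcases h with h | ⟨j, h⟩
  · left; simpa using h
  · right
    fin_cases j
    · left; simpa using h
    · right; simpa using h

/-- (A): exponents in an arbitrary finite dimensional space `P` of numbers which contains `1`. -/
def ExponentSpaces : Prop :=
  ∀ (P : Submodule (algebraicClosure ℚ ℂ) ℂ), FiniteDimensional (algebraicClosure ℚ ℂ) P →
    (1 : ℂ) ∈ P → ∀ (n k : ℕ) (l : Fin n → ℂ) (u : Fin k → ℂ),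
    (∀ j, IsAlgebraic ℚ (Complex.exp (l j))) → LinearIndependent ℚ l →
    finrank (algebraicClosure ℚ ℂ) (Exponents P l u) +
      finrank (algebraicClosure ℚ ℂ) (P ⊓ LogForms : Submodule (algebraicClosure ℚ ℂ) ℂ) ≤
    n + k * finrank (algebraicClosure ℚ ℂ) P +
      finrank (algebraicClosure ℚ ℂ) P * (finrank (algebraicClosure ℚ ℂ) P - 1) + 1

/-- The numbers `a_j` are positive, algebraic and multiplicatively independent. -/
def MultIndep {n : ℕ} (a : Fin n → ℝ) : Prop :=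
  (∀ j, 0 < a j ∧ IsAlgebraic ℚ (a j)) ∧ LinearIndependent ℚ fun j => Real.log (a j)

/-- (B): algebraic numbers of the form `a_1 ^ P_1(π) ⋯ a_n ^ P_n(π) * π ^ Q(π)`. -/
def PolynomialVectors : Prop :=
  ∀ (D n r : ℕ) (a : Fin n → ℝ) (F : Fin r → Fin n → (algebraicClosure ℚ ℂ)[X])
    (G : Fin r → (algebraicClosure ℚ ℂ)[X]), 1 ≤ D → MultIndep a →
    (LinearIndependent (algebraicClosure ℚ ℂ) fun s => (F s, G s)) →
    (∀ s j, (F s j).natDegree ≤ D) → (∀ s, (G s).natDegree ≤ D) →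
    (∀ s, IsAlgebraic ℚ ((∏ j, (a j : ℂ) ^ (aeval (π : ℂ) (F s j))) *
      (π : ℂ) ^ (aeval (π : ℂ) (G s)))) → r + 1 ≤ n + (D + 1) ^ 2

/-- (C): algebraic numbers of the form `(a π ^ m) ^ Q(π)`. -/
def MovingExponents : Prop :=
  ∀ (D r : ℕ) (a m : Fin r → ℝ) (Q : Fin r → (algebraicClosure ℚ ℂ)[X]), 1 ≤ D →
    MultIndep a → (∀ j, IsAlgebraic ℚ (m j)) →
    (∀ j, 1 ≤ (Q j).natDegree ∧ (Q j).natDegree ≤ D) →
    (∀ j, IsAlgebraic ℚ (((a j * π ^ m j : ℝ) : ℂ) ^ (aeval (π : ℂ) (Q j)))) →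
    r + 1 ≤ (D + 1) ^ 2 ∧ (IsAlgebraic ℚ (π ^ π) → r + 2 ≤ (D + 1) ^ 2)

/-- (D): one exponent of degree one. -/
def CommonExponent : Prop :=
  ∀ (t c α β : ℝ) (a : Fin 2 → ℝ), 0 < t → 0 < c → MultIndep a → IsAlgebraic ℚ α →
    IsAlgebraic ℚ β → α ≠ 0 →
    Transcendental ℚ ((c * t) ^ (α * π + β)) ∨
      ∃ j, Transcendental ℚ ((a j * c * t) ^ (α * π + β))

/-- **Main result**: (A), (B), (C), (D), (E). -/
theorem result : ExponentSpaces ∧ PolynomialVectors ∧ MovingExponents ∧ CommonExponent ∧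
    (Transcendental ℚ (π ^ π) ∨ Transcendental ℚ ((2 * π) ^ π) ∨
      Transcendental ℚ ((3 * π) ^ π)) :=
  ⟨fun P _ h1 n k l u hl hli => part_A P h1 n k l u hl hli,
    fun D n r a F G hD ha h1 h2 h3 h4 => part_B D n r a F G hD ha.1 ha.2 h1 h2 h3 h4,
    fun D r a m Q hD ha hm hQ h => part_C D r a m Q hD ha.1 ha.2 hm hQ h,
    fun t c α β a ht hc ha h1 h2 h3 => part_D t c α β a ht hc ha.1 ha.2 h1 h2 h3, part_E⟩

end Pool.Agent.Results.MP_4c2ad3_nt.PolynomialExponents
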