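import Pool.Agent.TH456.TM.AlgDep

/-!
# The numbers `π^(π + r)`, `r` rational

They are simultaneously badly approximable by algebraic numbers of bounded degree (in particular by
rational numbers), and near misses are rare.
-/

set_option autoImplicit false

namespace Pool.Agent.Results.MP_4c2ad3_nt.ShiftedExponents

open Polynomial

/-- The height of `P ∈ ℤ[X]`: the largest absolute value of a coefficient. -/
noncomputable def height (P : ℤ[X]) : ℕ := P.support.sup fun i => (P.coeff i).natAbs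

/-- The irreducible polynomials `P ∈ ℤ[X]` of degree at most `D`, normalised to have positive
leading coefficient (one of `P`, `-P`). -/
def Irr (D : ℕ) : Set ℤ[X] := {P | Irreducible P ∧ P.natDegree ≤ D ∧ 0 < P.leadingCoeff}

/-- The near relations: the pairs `(r, P)`, `r ∈ R`, `P` in `Irr D` of height at most `Y`, with
`|P(π^(π + r))| ≤ (height P) ^ (-w)`. -/
def Near (R : Finset ℚ) (D : ℕ) (w Y : ℝ) : Set (ℚ × ℤ[X]) :=
  {p | p.1 ∈ R ∧ p.2 ∈ Irr D ∧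
    |aeval (Real.pi ^ (Real.pi + (p.1 : ℝ))) p.2| ≤ (height p.2 : ℝ) ^ (-w) ∧
    (height p.2 : ℝ) ≤ Y}

lemma abs_aeval (x : ℝ) (P : ℤ[X]) : |aeval x P| = ‖aeval (x : ℂ) P‖ := by
  have h : aeval (x : ℂ) P = ((aeval x P : ℝ) : ℂ) :=
    aeval_algebraMap_apply ℂ x P
  rw [h, Complex.norm_real, Real.norm_eq_abs]

lemma split (r : ℚ) : ((Real.pi ^ (Real.pi + (r : ℝ)) : ℝ) : ℂ) =
    ((Real.pi ^ Real.pi : ℝ) : ℂ) * ((Real.pi ^ (r : ℝ) : ℝ) : ℂ) := by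
  rw [Real.rpow_add Real.pi_pos, Complex.ofReal_mul]

lemma meas (r s : ℚ) (hrs : r ≠ s) : Pool.Agent.TH456.TM.MeasT
    (((Real.pi ^ (s : ℝ) : ℝ) : ℂ) / ((Real.pi ^ (r : ℝ) : ℝ) : ℂ)) := by
  have hpi := Real.pi_pos
  obtain ⟨q, hq⟩ : ∃ q : ℚ, q = s - r := ⟨_, rfl⟩
  have hq0 : q ≠ 0 := by rw [hq]; exact sub_ne_zero.2 hrs.symm
  have h1 : ((Real.pi ^ (s : ℝ) : ℝ) : ℂ) / ((Real.pi ^ (r : ℝ) : ℝ) : ℂ) =
      ((Real.pi ^ (q : ℝ) : ℝ) : ℂ) := by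
    rw [← Complex.ofReal_div, ← Real.rpow_sub hpi, hq]
    push_cast
    rfl
  rw [h1]
  -- the `den`-th power is an integral power of `π`
  have h2 : ((Real.pi ^ (q : ℝ) : ℝ) : ℂ) ^ q.den = (Real.pi : ℂ) ^ q.num := by
    rw [← Complex.ofReal_pow, ← Complex.ofReal_zpow, ← Real.rpow_natCast, ← Real.rpow_mul hpi.le,
      ← Real.rpow_intCast]
    congr 2
    have := Rat.mul_den_eq_num q
    exact_mod_cast this
  have hnum : q.num ≠ 0 := Rat.num_ne_zero.2 hq0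
  refine Pool.Agent.TH456.TM.measT_of_isAlgebraic Pool.Agent.TH456.TM.measT_pi _ ?_ ?_
  · refine IsAlgebraic.of_pow q.den_pos ?_
    rw [h2]
    have hpiA : IsAlgebraic (Algebra.adjoin ℤ ({(Real.pi : ℂ)} : Set ℂ)) (Real.pi : ℂ) :=
      isAlgebraic_algebraMap
        (⟨(Real.pi : ℂ), Algebra.subset_adjoin rfl⟩ : Algebra.adjoin ℤ ({(Real.pi : ℂ)} : Set ℂ))
    obtain ⟨n, hn | hn⟩ := q.num.eq_nat_or_neg
    · rw [hn, zpow_natCast]
      exact hpiA.pow n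
    · rw [hn, zpow_neg, zpow_natCast]
      exact (hpiA.pow n).inv
  · intro halg
    have h3 : IsAlgebraic ℤ ((Real.pi : ℂ) ^ q.num) := by
      rw [← h2]
      exact halg.pow _
    obtain ⟨P, hP, hP0⟩ := h3
    obtain ⟨κ, c, hκ, hc, h⟩ :=
      Pool.Agent.TH456.TM.measT_zpow Pool.Agent.TH456.TM.measT_pi q.num hnum P.natDegree
    have h4 := h P hP le_rfl (Pool.Agent.TH456.TM.ht P) (Pool.Agent.TH456.TM.ht_pos P hP)
      (Pool.Agent.TH456.TM.le_ht P)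
    rw [hP0, norm_zero, mul_zero] at h4
    linarith

/-- **The numbers `π^(π + r)`.** -/
theorem result (R : Finset ℚ) (D : ℕ) : ∃ κ c : ℝ, 0 < κ ∧ 0 < c ∧
    (∀ r ∈ R, ∀ s ∈ R, r ≠ s → ∀ P Q : ℤ[X], P ≠ 0 → Q ≠ 0 → P.natDegree ≤ D → Q.natDegree ≤ D →
      ∀ H : ℝ, (height P : ℝ) ≤ H → (height Q : ℝ) ≤ H →
        c * H ^ (-κ) ≤ max |aeval (Real.pi ^ (Real.pi + (r : ℝ))) P|
          |aeval (Real.pi ^ (Real.pi + (s : ℝ))) Q|) ∧
    (∀ w ρ : ℝ, 1 < ρ → ρ < w / κ → ∃ C : ℝ, ∀ Y : ℝ, 3 ≤ Y → (Near R D w Y).Finite ∧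
      ((Near R D w Y).ncard : ℝ) ≤ Real.log (Real.log Y) / Real.log ρ + C) := by
  obtain ⟨κ, hκ, h⟩ := Pool.Agent.TH456.TM.fam_mul R (fun r => ((Real.pi ^ (r : ℝ) : ℝ) : ℂ))
    (fun r _ => by exact_mod_cast (Real.rpow_pos_of_pos Real.pi_pos _).ne')
    (fun r _ s _ hrs => meas r s hrs) _ Pool.Agent.TH456.TM.measT_pi D
  obtain ⟨c, hc, h1, h2⟩ := h ((Real.pi ^ Real.pi : ℝ) : ℂ)
    (by exact_mod_cast (Real.rpow_pos_of_pos Real.pi_pos _).ne')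
  refine ⟨κ, c, hκ, hc, ?_, ?_⟩
  · intro r hr s hs hrs P Q hP hQ hPD hQD H hPH hQH
    rw [abs_aeval, abs_aeval, split, split]
    exact h1 r hr s hs hrs P Q hP hQ hPD hQD H hPH hQH
  · intro w ρ hρ hρw
    obtain ⟨C, hC⟩ := Pool.Agent.TH456.TM.sparse_fam R
      (fun r => ((Real.pi ^ Real.pi : ℝ) : ℂ) * ((Real.pi ^ (r : ℝ) : ℝ) : ℂ)) D κ hκ
      ⟨c, hc, fun u hu v hv P hP Q hQ hne H hPH hQH => by
        by_cases huv : u = v
        · subst huv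
          have hPQ : P ≠ Q := fun h => hne (by rw [h])
          exact h2 u hu P hP Q hQ hPQ H hPH hQH
        · exact h1 u hu v hv huv P Q hP.1.ne_zero hQ.1.ne_zero hP.2.1 hQ.2.1 H hPH hQH⟩ w ρ hρ hρw
    refine ⟨C, fun Y hY => ?_⟩
    have hset : Near R D w Y = {p ∈ Pool.Agent.TH456.TM.NearF R
        (fun r => ((Real.pi ^ Real.pi : ℝ) : ℂ) * ((Real.pi ^ (r : ℝ) : ℝ) : ℂ)) D w |
        (Pool.Agent.TH456.TM.ht p.2 : ℝ) ≤ Y} := by
      ext p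
      unfold Near
      rw [Set.mem_ofPred_eq, abs_aeval, split]
      constructor
      · rintro ⟨a, b, c, d⟩
        exact ⟨⟨a, b, c⟩, d⟩
      · rintro ⟨⟨a, b, c⟩, d⟩
        exact ⟨a, b, c, d⟩
    rw [hset]
    exact hC Y hY

end Pool.Agent.Results.MP_4c2ad3_nt.ShiftedExponents
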